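import Pool.Agent.H66.BP.Targets

/-! # REP: the boundary integral of a strip (helper76), for `Pool.Agent.H66.BP` -/

open MeasureTheory Set Filter Topology Metric
open scoped Real ENNReal NNReal

namespace Pool.Agent.H76.BP

open Pool.Agent.H66.BP

theorem continuous_pt (f : ℝ → ℝ) (hf : Continuous f) : Continuous (fun x : ℝ => (!₂[f x, x] : E)) := by
  apply (PiLp.continuous_toLp 2 _).comp
  apply continuous_pi
  intro i
  fin_cases i
  · simpa using hf
  · simpa using continuous_id'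

theorem continuous_seg (c : ℝ) : Continuous (fun y : ℝ => (!₂[y, c] : E)) := by
  apply (PiLp.continuous_toLp 2 _).comp
  apply continuous_pi
  intro i
  fin_cases i
  · simpa using continuous_id'
  · simpa using continuous_const

theorem al_nonneg (f : ℝ → ℝ) (x : ℝ) : 0 ≤ al f x := Real.sqrt_nonneg _

theorem measurable_al (f : ℝ → ℝ) : Measurable (al f) := by
  unfold al rd
  have := measurable_derivWithin_Ioi f
  fun_prop

/-- the data of one piece of the boundary -/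
structure Piece (G : Set E) (I : (E → ℂ) → ℂ) : Prop where
  meas : MeasurableSet G
  fin : (μH[1] : Measure E) G < ⊤
  integrable : ∀ g : E → ℂ, Continuous g → IntegrableOn g G (μH[1] : Measure E)
  eq : ∀ g : E → ℂ, Continuous g → ∫ y in G, g y ∂(μH[1] : Measure E) = I g

theorem integrableOn_piece (G C : Set E) (hG : (μH[1] : Measure E) G < ⊤) (hGm : MeasurableSet G)
    (hC : IsCompact C) (hGC : G ⊆ C) (g : E → ℂ) (hg : Continuous g) :
    IntegrableOn g G (μH[1] : Measure E) := by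
  obtain ⟨M, hM⟩ := hC.exists_bound_of_continuousOn hg.continuousOn
  refine Measure.integrableOn_of_bounded (M := M) hG.ne hg.aestronglyMeasurable ?_
  filter_upwards [ae_restrict_mem hGm] with y hy
  exact hM y (hGC hy)

theorem seg_piece (c lo hi : ℝ) (h : lo ≤ hi) :
    Piece {y : E | y 1 = c ∧ lo ≤ y 0 ∧ y 0 ≤ hi} (fun g => ∫ y in lo..hi, g !₂[y, c]) := by
  have hiso : Isometry (fun y : ℝ => (!₂[y, c] : E)) := by
    apply Isometry.of_dist_eq
    intro x y
    rw [EuclideanSpace.dist_eq, Fin.sum_univ_two]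
    simp only [Matrix.cons_val_zero, Matrix.cons_val_one, dist_self]
    rw [zero_pow (by norm_num), add_zero, Real.sqrt_sq dist_nonneg]
  have himg : {y : E | y 1 = c ∧ lo ≤ y 0 ∧ y 0 ≤ hi} = (fun y : ℝ => (!₂[y, c] : E)) '' Icc lo hi := by
    ext y
    simp only [Set.mem_ofPred_eq, mem_image, mem_Icc]
    constructor
    · rintro ⟨h1, h2, h3⟩
      refine ⟨y 0, ⟨h2, h3⟩, ?_⟩
      ext i
      fin_cases i <;> simp [h1]
    · rintro ⟨x, ⟨h2, h3⟩, rfl⟩
      exact ⟨by simp, by simpa using h2, by simpa using h3⟩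
  have hcont := continuous_seg c
  have hcomp : IsCompact {y : E | y 1 = c ∧ lo ≤ y 0 ∧ y 0 ≤ hi} := by
    rw [himg]; exact isCompact_Icc.image hcont
  have hmeas : MeasurableSet {y : E | y 1 = c ∧ lo ≤ y 0 ∧ y 0 ≤ hi} := hcomp.measurableSet
  have hres : (μH[1] : Measure E).restrict {y : E | y 1 = c ∧ lo ≤ y 0 ∧ y 0 ≤ hi} =
      (volume.restrict (Icc lo hi)).map (fun y : ℝ => (!₂[y, c] : E)) := by
    ext U hU
    rw [Measure.restrict_apply hU, Measure.map_apply hcont.measurable hU,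
      Measure.restrict_apply (hcont.measurable hU), himg]
    have : U ∩ (fun y : ℝ => (!₂[y, c] : E)) '' Icc lo hi =
        (fun y : ℝ => (!₂[y, c] : E)) '' ((fun y : ℝ => (!₂[y, c] : E)) ⁻¹' U ∩ Icc lo hi) := by
      rw [Set.image_preimage_inter]
    rw [this, hiso.hausdorffMeasure_image (Or.inl (by norm_num)), hausdorffMeasure_real]
  have hfin : (μH[1] : Measure E) {y : E | y 1 = c ∧ lo ≤ y 0 ∧ y 0 ≤ hi} < ⊤ := by
    have h1 : (μH[1] : Measure E) {y : E | y 1 = c ∧ lo ≤ y 0 ∧ y 0 ≤ hi} =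
        ((μH[1] : Measure E).restrict {y : E | y 1 = c ∧ lo ≤ y 0 ∧ y 0 ≤ hi}) univ := by
      rw [Measure.restrict_apply_univ]
    rw [h1, hres, Measure.map_apply hcont.measurable MeasurableSet.univ, preimage_univ,
      Measure.restrict_apply_univ]
    exact measure_Icc_lt_top
  refine ⟨hmeas, hfin, fun g hg => integrableOn_piece _ _ hfin hmeas hcomp Subset.rfl g hg, ?_⟩
  intro g hg
  rw [hres, integral_map hcont.aemeasurable hg.aestronglyMeasurable, integral_Icc_eq_integral_Ioc,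
    intervalIntegral.integral_of_le h]

theorem graph_piece (hGRH : T_GRH) (hALI : T_ALI) (a b : ℝ) (f : ℝ → ℝ) (hab : a < b)
    (hconv : ConvexOn ℝ (Icc a b) f ∨ ConcaveOn ℝ (Icc a b) f) (hcont : ContinuousOn f (Icc a b)) :
    Piece {y : E | y 1 ∈ Ioo a b ∧ y 0 = f (y 1)} (fun g => ∫ x in a..b, g !₂[f x, x] * (al f x : ℂ)) := by
  obtain ⟨fe, hfe, hfeq⟩ : ∃ fe : ℝ → ℝ, Continuous fe ∧ ∀ x ∈ Icc a b, fe x = f x := by
    refine ⟨Set.IccExtend hab.le ((Icc a b).domRestrict f), ?_, ?_⟩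
    · exact (continuousOn_iff_continuous_domRestrict.1 hcont).Icc_extend'
    · intro x hx
      rw [Set.IccExtend_of_mem hab.le _ hx]
      rfl
  have hφ := continuous_pt fe hfe
  have himg : {y : E | y 1 ∈ Ioo a b ∧ y 0 = f (y 1)} = (fun x : ℝ => (!₂[fe x, x] : E)) '' Ioo a b := by
    ext y
    simp only [Set.mem_ofPred_eq, mem_image]
    constructor
    · rintro ⟨h1, h2⟩
      refine ⟨y 1, h1, ?_⟩
      ext i
      fin_cases i
      · simp [h2, hfeq _ (Ioo_subset_Icc_self h1)]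
      · simp
    · rintro ⟨x, hx, rfl⟩
      refine ⟨by simpa using hx, ?_⟩
      simp [hfeq _ (Ioo_subset_Icc_self hx)]
  have hsub : {y : E | y 1 ∈ Ioo a b ∧ y 0 = f (y 1)} ⊆ (fun x : ℝ => (!₂[fe x, x] : E)) '' Icc a b := by
    rw [himg]; exact Set.image_mono Ioo_subset_Icc_self
  have hcompC : IsCompact ((fun x : ℝ => (!₂[fe x, x] : E)) '' Icc a b) := isCompact_Icc.image hφ
  have hmeas : MeasurableSet {y : E | y 1 ∈ Ioo a b ∧ y 0 = f (y 1)} := by
    have : {y : E | y 1 ∈ Ioo a b ∧ y 0 = f (y 1)} =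
        ((fun x : ℝ => (!₂[fe x, x] : E)) '' Icc a b) ∩ {y : E | y 1 ∈ Ioo a b} := by
      ext y
      constructor
      · intro h; exact ⟨hsub h, h.1⟩
      · rintro ⟨⟨x, hx, rfl⟩, h⟩
        exact ⟨h, by simp [hfeq _ hx]⟩
    rw [this]
    apply hcompC.measurableSet.inter
    have h1 : Continuous (fun y : E => y 1) := by fun_prop
    exact h1.measurable measurableSet_Ioo
  have hres : (μH[1] : Measure E).restrict {y : E | y 1 ∈ Ioo a b ∧ y 0 = f (y 1)} =
      ((volume.restrict (Ioo a b)).withDensity (fun x => ENNReal.ofReal (al f x))).map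
        (fun x : ℝ => (!₂[fe x, x] : E)) := by
    ext U hU
    have hpre : MeasurableSet ((fun x : ℝ => (!₂[fe x, x] : E)) ⁻¹' U) := hφ.measurable hU
    rw [Measure.restrict_apply hU, Measure.map_apply hφ.measurable hU, withDensity_apply _ hpre,
      Measure.restrict_restrict hpre, himg]
    have e1 : U ∩ (fun x : ℝ => (!₂[fe x, x] : E)) '' Ioo a b =
        (fun x : ℝ => (!₂[f x, x] : E)) '' ((fun x : ℝ => (!₂[fe x, x] : E)) ⁻¹' U ∩ Ioo a b) := by
      rw [← Set.image_preimage_inter]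
      apply Set.image_congr
      intro x hx
      rw [hfeq x (Ioo_subset_Icc_self hx.2)]
    rw [e1, hGRH a b f hab hconv hcont _ (hpre.inter measurableSet_Ioo) inter_subset_right]
  have hint := (hALI a b f hab hconv hcont).1
  have hfin : (μH[1] : Measure E) {y : E | y 1 ∈ Ioo a b ∧ y 0 = f (y 1)} < ⊤ := by
    have h1 : (μH[1] : Measure E) {y : E | y 1 ∈ Ioo a b ∧ y 0 = f (y 1)} =
        ((μH[1] : Measure E).restrict {y : E | y 1 ∈ Ioo a b ∧ y 0 = f (y 1)}) univ := by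
      rw [Measure.restrict_apply_univ]
    rw [h1, hres, Measure.map_apply hφ.measurable MeasurableSet.univ, preimage_univ,
      withDensity_apply _ MeasurableSet.univ, Measure.restrict_univ]
    have h2 : IntegrableOn (al f) (Ioo a b) := by
      have := (intervalIntegrable_iff_integrableOn_Ioc_of_le hab.le).1 hint
      exact this.mono_set Ioo_subset_Ioc_self
    have h3 := h2.hasFiniteIntegral
    rw [hasFiniteIntegral_iff_ofReal (ae_of_all _ (fun x => al_nonneg f x))] at h3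
    exact h3
  refine ⟨hmeas, hfin, fun g hg => integrableOn_piece _ _ hfin hmeas hcompC hsub g hg, ?_⟩
  intro g hg
  rw [hres, integral_map hφ.aemeasurable hg.aestronglyMeasurable,
    integral_withDensity_eq_integral_toReal_smul (measurable_al f).ennreal_ofReal
      (ae_of_all _ (fun x => ENNReal.ofReal_lt_top)),
    ← integral_Ioc_eq_integral_Ioo, intervalIntegral.integral_of_le hab.le]
  apply setIntegral_congr_fun measurableSet_Ioc
  intro x hx
  simp only
  rw [ENNReal.toReal_ofReal (al_nonneg f x), hfeq x (Ioc_subset_Icc_self hx), Complex.real_smul,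
    mul_comm]

theorem Piece.union {G G' : Set E} {I I' : (E → ℂ) → ℂ} (h : Piece G I) (h' : Piece G' I')
    (hd : Disjoint G G') : Piece (G ∪ G') (fun g => I g + I' g) where
  meas := h.meas.union h'.meas
  fin := (measure_union_le _ _).trans_lt (ENNReal.add_lt_top.2 ⟨h.fin, h'.fin⟩)
  integrable := fun g hg => (h.integrable g hg).union (h'.integrable g hg)
  eq := fun g hg => by
    rw [setIntegral_union hd h'.meas (h.integrable g hg) (h'.integrable g hg), h.eq g hg,
      h'.eq g hg]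

theorem rep (hFRN : T_FRN) (hGRH : T_GRH) (hALI : T_ALI) : T_REP := by
  intro S
  have hpT := graph_piece hGRH hALI S.a S.b S.T S.hab (Or.inr S.concT) S.contT
  have hpB := graph_piece hGRH hALI S.a S.b S.B S.hab (Or.inl S.convB) S.contB
  have hsa := seg_piece S.a (S.B S.a) (S.T S.a) (S.le S.a (left_mem_Icc.2 S.hab.le))
  have hsb := seg_piece S.b (S.B S.b) (S.T S.b) (S.le S.b (right_mem_Icc.2 S.hab.le))
  have hd1 : Disjoint {y : E | y 1 ∈ Ioo S.a S.b ∧ y 0 = S.T (y 1)}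
      {y : E | y 1 ∈ Ioo S.a S.b ∧ y 0 = S.B (y 1)} := by
    rw [Set.disjoint_left]
    rintro y ⟨h1, h2⟩ ⟨_, h3⟩
    have := S.lt _ h1
    linarith
  have hp1 := hpT.union hpB hd1
  have hd2 : Disjoint ({y : E | y 1 ∈ Ioo S.a S.b ∧ y 0 = S.T (y 1)} ∪
      {y : E | y 1 ∈ Ioo S.a S.b ∧ y 0 = S.B (y 1)})
      {y : E | y 1 = S.a ∧ S.B S.a ≤ y 0 ∧ y 0 ≤ S.T S.a} := by
    rw [Set.disjoint_left]
    rintro y (⟨h1, _⟩ | ⟨h1, _⟩) ⟨h3, _⟩
    · rw [h3] at h1; exact lt_irrefl _ h1.1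
    · rw [h3] at h1; exact lt_irrefl _ h1.1
  have hp2 := hp1.union hsa hd2
  have hd3 : Disjoint (({y : E | y 1 ∈ Ioo S.a S.b ∧ y 0 = S.T (y 1)} ∪
      {y : E | y 1 ∈ Ioo S.a S.b ∧ y 0 = S.B (y 1)}) ∪
      {y : E | y 1 = S.a ∧ S.B S.a ≤ y 0 ∧ y 0 ≤ S.T S.a})
      {y : E | y 1 = S.b ∧ S.B S.b ≤ y 0 ∧ y 0 ≤ S.T S.b} := by
    rw [Set.disjoint_left]
    rintro y ((⟨h1, _⟩ | ⟨h1, _⟩) | ⟨h1, _⟩) ⟨h3, _⟩
    · rw [h3] at h1; exact lt_irrefl _ h1.2
    · rw [h3] at h1; exact lt_irrefl _ h1.2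
    · have := S.hab
      rw [← h1, ← h3] at this
      exact lt_irrefl _ this
  have hp3 := hp2.union hsb hd3
  have hset : frontier S.set = (({y : E | y 1 ∈ Ioo S.a S.b ∧ y 0 = S.T (y 1)} ∪
      {y : E | y 1 ∈ Ioo S.a S.b ∧ y 0 = S.B (y 1)}) ∪
      {y : E | y 1 = S.a ∧ S.B S.a ≤ y 0 ∧ y 0 ≤ S.T S.a}) ∪
      {y : E | y 1 = S.b ∧ S.B S.b ≤ y 0 ∧ y 0 ≤ S.T S.b} := by
    rw [hFRN S]
    have hcase : ∀ x, x ∈ Icc S.a S.b → x ∈ Ioo S.a S.b ∨ x = S.a ∨ x = S.b := by
      intro x hx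
      rcases hx.1.eq_or_lt with h | h
      · exact Or.inr (Or.inl h.symm)
      · rcases hx.2.eq_or_lt with h' | h'
        · exact Or.inr (Or.inr h')
        · exact Or.inl ⟨h, h'⟩
    have hla := S.le S.a (left_mem_Icc.2 S.hab.le)
    have hlb := S.le S.b (right_mem_Icc.2 S.hab.le)
    apply Set.Subset.antisymm
    · rintro y (((⟨h1, h2⟩ | ⟨h1, h2⟩) | h) | h)
      · rcases hcase _ h1 with h3 | h3 | h3
        · exact Or.inl (Or.inl (Or.inl ⟨h3, h2⟩))
        · exact Or.inl (Or.inr ⟨h3, by rw [h2, h3]; exact hla, by rw [h2, h3]⟩)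
        · exact Or.inr ⟨h3, by rw [h2, h3]; exact hlb, by rw [h2, h3]⟩
      · rcases hcase _ h1 with h3 | h3 | h3
        · exact Or.inl (Or.inl (Or.inr ⟨h3, h2⟩))
        · exact Or.inl (Or.inr ⟨h3, by rw [h2, h3], by rw [h2, h3]; exact hla⟩)
        · exact Or.inr ⟨h3, by rw [h2, h3], by rw [h2, h3]; exact hlb⟩
      · exact Or.inl (Or.inr h)
      · exact Or.inr h
    · rintro y (((⟨h1, h2⟩ | ⟨h1, h2⟩) | h) | h)
      · exact Or.inl (Or.inl (Or.inl ⟨Ioo_subset_Icc_self h1, h2⟩))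
      · exact Or.inl (Or.inl (Or.inr ⟨Ioo_subset_Icc_self h1, h2⟩))
      · exact Or.inl (Or.inr h)
      · exact Or.inr h
  rw [← hset] at hp3
  constructor
  · unfold bdm
    rw [Measure.restrict_apply_univ]
    exact hp3.fin
  · intro z
    unfold FK bdm
    have hg : Continuous (fun y : E => Complex.exp (z.1 * ((y 0 : ℝ) : ℂ) + z.2 * ((y 1 : ℝ) : ℂ))) := by
      fun_prop
    rw [hp3.eq _ hg]
    unfold Strip.F
    simp

end Pool.Agent.H76.BP
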