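import Pool.Agent.H66.BP.Targets

/-! # STAR: the splitting of the zeros (helper76), for `Pool.Agent.H66.BP` -/

open MeasureTheory Set Filter Topology Metric
open scoped Real ENNReal NNReal

namespace Pool.Agent.H76.BP

open Pool.Agent.H66.BP

/-- the local essential mass -/
noncomputable def Pf (T : ℂ × ℂ → ℂ → ℕ) (z : ℂ × ℂ) (ζ : ℂ) : ℕ :=
  sInf {n | ∀ᶠ ε in 𝓝[>] (0 : ℝ), ∀ᶠ z' in 𝓝 z, ∑ᶠ x ∈ ball ζ ε, T z' x ≤ n}

theorem Pf_eq (T : ℂ × ℂ → ℂ → ℕ) (z : ℂ × ℂ) (ζ : ℂ) (m : ℕ)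
    (h : ∀ᶠ ε in 𝓝[>] (0 : ℝ), (∀ᶠ z' in 𝓝 z, ∑ᶠ x ∈ ball ζ ε, T z' x ≤ m) ∧
      (∃ᶠ z' in 𝓝 z, m ≤ ∑ᶠ x ∈ ball ζ ε, T z' x)) : Pf T z ζ = m := by
  apply le_antisymm
  · apply Nat.sInf_le
    exact h.mono (fun ε hε => hε.1)
  · apply le_csInf
    · exact ⟨m, h.mono (fun ε hε => hε.1)⟩
    · intro n hn
      obtain ⟨ε, h1, h2⟩ := (h.and hn).exists
      obtain ⟨z', h3, h4⟩ := (h1.2.and_eventually h2).exists
      exact h3.trans h4

theorem ball_neg_image (ζ : ℂ) (ε : ℝ) : ball (-ζ) ε = (fun x : ℂ => -x) '' ball ζ ε := by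
  ext x
  simp only [mem_ball, mem_image]
  constructor
  · intro h
    refine ⟨-x, ?_, neg_neg x⟩
    rw [← dist_neg_neg]; simpa using h
  · rintro ⟨y, hy, rfl⟩
    rw [dist_neg_neg]; exact hy

theorem Pf_neg (T : ℂ × ℂ → ℂ → ℕ) (z : ℂ × ℂ) (ζ : ℂ) :
    Pf T z (-ζ) = Pf (fun z x => T z (-x)) z ζ := by
  unfold Pf
  have : ∀ (ε : ℝ) (z' : ℂ × ℂ), ∑ᶠ x ∈ ball (-ζ) ε, T z' x = ∑ᶠ x ∈ ball ζ ε, T z' (-x) := by
    intro ε z'
    rw [ball_neg_image, finsum_mem_image (neg_injective.injOn)]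
  simp_rw [this]

theorem Pf_smul (T : ℂ × ℂ → ℂ → ℕ) (c : ℂ) (hc : c ≠ 0)
    (hT : ∀ z x, T (c • z) x = T z (c * x)) (z : ℂ × ℂ) (ζ : ℂ) :
    Pf T (c • z) ζ = Pf T z (c * ζ) := by
  have hc' : 0 < ‖c‖ := norm_pos_iff.2 hc
  have hnhds : 𝓝 (c • z) = Filter.map (fun w => c • w) (𝓝 z) :=
    ((Homeomorph.smulOfNeZero c hc).map_nhds_eq z).symm
  have hsum : ∀ (ε : ℝ) (z' : ℂ × ℂ), ∑ᶠ x ∈ ball ζ ε, T (c • z') x =
      ∑ᶠ x ∈ ball (c * ζ) (‖c‖ * ε), T z' x := by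
    intro ε z'
    have : ball (c * ζ) (‖c‖ * ε) = (fun x : ℂ => c * x) '' ball ζ ε := by
      ext y
      simp only [mem_ball, mem_image]
      constructor
      · intro h
        refine ⟨c⁻¹ * y, ?_, by field_simp⟩
        rw [dist_eq_norm] at h ⊢
        have e : c⁻¹ * y - ζ = c⁻¹ * (y - c * ζ) := by field_simp
        rw [e, norm_mul, norm_inv]
        rw [inv_mul_lt_iff₀ hc']
        exact h
      · rintro ⟨x, hx, rfl⟩
        rw [dist_eq_norm] at hx ⊢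
        rw [← mul_sub, norm_mul]
        exact mul_lt_mul_of_pos_left hx hc'
    rw [this, finsum_mem_image ((mul_right_injective₀ hc).injOn)]
    exact finsum_mem_congr rfl (fun x _ => hT z' x)
  have hpos : Filter.map (fun ε : ℝ => ‖c‖ * ε) (𝓝[>] (0 : ℝ)) = 𝓝[>] (0 : ℝ) := by
    have h0 : (𝓝[>] (0 : ℝ)) = 𝓝[>] (‖c‖ * 0) := by rw [mul_zero]
    have := (OrderIso.mulLeft₀ ‖c‖ hc').toHomeomorph
    apply le_antisymm
    · have : Tendsto (fun ε : ℝ => ‖c‖ * ε) (𝓝[>] (0 : ℝ)) (𝓝[>] (0 : ℝ)) := by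
        apply tendsto_nhdsWithin_of_tendsto_nhds_of_eventually_within
        · have : Tendsto (fun ε : ℝ => ‖c‖ * ε) (𝓝 (0 : ℝ)) (𝓝 (‖c‖ * 0)) :=
            (continuous_const_mul ‖c‖).tendsto 0
          rw [mul_zero] at this
          exact this.mono_left nhdsWithin_le_nhds
        · filter_upwards [self_mem_nhdsWithin] with ε hε
          exact mul_pos hc' hε
      exact this
    · have h1 : Tendsto (fun ε : ℝ => ‖c‖⁻¹ * ε) (𝓝[>] (0 : ℝ)) (𝓝[>] (0 : ℝ)) := by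
        apply tendsto_nhdsWithin_of_tendsto_nhds_of_eventually_within
        · have : Tendsto (fun ε : ℝ => ‖c‖⁻¹ * ε) (𝓝 (0 : ℝ)) (𝓝 (‖c‖⁻¹ * 0)) :=
            (continuous_const_mul ‖c‖⁻¹).tendsto 0
          rw [mul_zero] at this
          exact this.mono_left nhdsWithin_le_nhds
        · filter_upwards [self_mem_nhdsWithin] with ε hε
          exact mul_pos (inv_pos.2 hc') hε
      have h2 : Filter.map (fun ε : ℝ => ‖c‖ * ε) (Filter.map (fun ε : ℝ => ‖c‖⁻¹ * ε) (𝓝[>] (0 : ℝ))) =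
          𝓝[>] (0 : ℝ) := by
        rw [Filter.map_map]
        have : ((fun ε : ℝ => ‖c‖ * ε) ∘ fun ε : ℝ => ‖c‖⁻¹ * ε) = id := by
          funext ε; simp only [Function.comp, id]; field_simp
        rw [this, Filter.map_id]
      calc 𝓝[>] (0 : ℝ) = Filter.map (fun ε : ℝ => ‖c‖ * ε)
            (Filter.map (fun ε : ℝ => ‖c‖⁻¹ * ε) (𝓝[>] (0 : ℝ))) := h2.symm
        _ ≤ _ := Filter.map_mono h1
  unfold Pf
  congr 1
  ext n
  simp only [Set.mem_ofPred_eq]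
  rw [hnhds]
  simp_rw [Filter.eventually_map, hsum]
  constructor
  · intro h
    rw [← hpos]
    exact Filter.eventually_map.2 h
  · intro h
    rw [← hpos] at h
    exact Filter.eventually_map.1 h

theorem oF_smul (F : ℂ × ℂ → ℂ) (c : ℂ) (hc : c ≠ 0) (z : ℂ × ℂ) (x : ℂ) :
    oF F (c • z) x = oF F z (c * x) := by
  unfold oF analyticOrderNatAt
  have e : (fun ξ : ℂ => F (ξ • c • z)) = (fun ξ : ℂ => F (ξ • z)) ∘ (fun ξ : ℂ => c * ξ) := by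
    funext ξ
    simp only [Function.comp]
    rw [smul_smul, mul_comm]
  rw [e, analyticOrderAt_comp_of_deriv_ne_zero]
  · fun_prop
  · have : deriv (fun ξ : ℂ => c * ξ) x = c := by
      rw [deriv_const_mul_field, deriv_id'', mul_one]
    rw [this]; exact hc

theorem frequently_not_mul (z₀ : ℂ × ℂ) (z : ℂ × ℂ) :
    ∃ᶠ z' in 𝓝 z, ∀ c' : ℂ, z' ≠ c' • z₀ := by
  have hne : (Submodule.span ℂ {z₀} : Submodule ℂ (ℂ × ℂ)) ≠ ⊤ := by
    intro h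
    have h1 : Module.finrank ℂ (Submodule.span ℂ {z₀} : Submodule ℂ (ℂ × ℂ)) ≤ 1 :=
      (finrank_span_le_card ({z₀} : Set (ℂ × ℂ))).trans (by simp)
    rw [h, finrank_top, Module.finrank_prod, Module.finrank_self] at h1
    omega
  have hint : interior ((Submodule.span ℂ {z₀} : Submodule ℂ (ℂ × ℂ)) : Set (ℂ × ℂ)) = ∅ := by
    by_contra h
    exact hne (Submodule.eq_top_of_nonempty_interior' _ (Set.nonempty_iff_ne_empty.2 h))
  have hd := interior_eq_empty_iff_dense_compl.1 hint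
  have := mem_closure_iff_frequently.1 (hd z)
  refine this.mono ?_
  intro z' hz' c' hc'
  apply hz'
  rw [hc']
  exact Submodule.smul_mem _ _ (Submodule.mem_span_singleton_self z₀)

theorem AnFam2.evt {z₀ : ℂ × ℂ} {p : ℂ × ℂ → Polynomial ℂ} (h : AnFam2 z₀ p) :
    ∃ n : ℕ, ∀ᶠ z in 𝓝 z₀, (∀ᶠ z' in 𝓝 z, (p z').Monic ∧ (p z').natDegree = n) ∧
      ∀ k, ContinuousAt (fun w => (p w).coeff k) z := by
  obtain ⟨⟨n, hn⟩, han⟩ := h
  refine ⟨n, ?_⟩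
  have h1 : ∀ᶠ z in 𝓝 z₀, ∀ k ∈ Finset.range (n + 1), AnalyticAt ℂ (fun w => (p w).coeff k) z := by
    rw [Filter.eventually_all_finset]
    intro k _
    exact (han k).eventually_analyticAt
  filter_upwards [h1, hn.eventually_nhds] with z hz hz2
  refine ⟨hz2, fun k => ?_⟩
  by_cases hk : k ∈ Finset.range (n + 1)
  · exact (hz k hk).continuousAt
  · have : (fun w => (p w).coeff k) =ᶠ[𝓝 z] fun _ => 0 := by
      filter_upwards [hz2] with w hw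
      apply Polynomial.coeff_eq_zero_of_natDegree_lt
      rw [hw.2]
      simpa using hk
    exact (continuousAt_congr this).2 continuousAt_const

theorem finite_mult (p : Polynomial ℂ) (hp : p ≠ 0) (s : Set ℂ) :
    (s ∩ Function.support (fun x => p.rootMultiplicity x)).Finite := by
  apply (p.roots.toFinset.finite_toSet).subset
  rintro x ⟨_, hx⟩
  rw [Function.mem_support] at hx
  simp only [Finset.mem_coe, Multiset.mem_toFinset, Polynomial.mem_roots hp]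
  exact (Polynomial.rootMultiplicity_pos hp).1 (Nat.pos_of_ne_zero hx)

theorem key (hRC : T_RC) (T : ℂ × ℂ → ℂ → ℕ) (z₀ : ℂ × ℂ) (ζ₀ : ℂ) (ε : ℝ)
    (b c : ℂ × ℂ → Polynomial ℂ) (hb : AnFam2 z₀ b) (hc : AnFam2 z₀ c)
    (hT : ∀ᶠ z in 𝓝 z₀, ∀ ζ ∈ ball ζ₀ ε,
      T z ζ = (b z).rootMultiplicity ζ - (c z).rootMultiplicity ζ)
    (hco : ∀ᶠ z in 𝓝 z₀, (∀ c' : ℂ, z ≠ c' • z₀) → ∀ ζ, ¬ ((b z).IsRoot ζ ∧ (c z).IsRoot ζ)) :
    ∀ᶠ z in 𝓝 z₀, ∀ ζ ∈ ball ζ₀ ε, Pf T z ζ = (b z).rootMultiplicity ζ := by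
  obtain ⟨n, hn⟩ := AnFam2.evt hb
  obtain ⟨n', hn'⟩ := AnFam2.evt hc
  filter_upwards [hT.eventually_nhds, hco.eventually_nhds, hn, hn'] with z h1 h2 h3 h4
  intro ζ hζ
  obtain ⟨hmon, hcont⟩ := h3
  obtain ⟨hmonc, _⟩ := h4
  obtain ⟨ε₁, hε₁, hrc⟩ := hRC (ℂ × ℂ) (𝓝 z) b (b z) n hmon hmon.self_of_nhds.1
    hmon.self_of_nhds.2 (fun k => (hcont k)) ζ
  apply Pf_eq
  have hζ' : 0 < ε - dist ζ ζ₀ := by rw [mem_ball] at hζ; linarith
  have hmin : 0 < min ε₁ (ε - dist ζ ζ₀) := lt_min hε₁ hζ'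
  filter_upwards [Ioo_mem_nhdsGT hmin] with ε' hε'
  have hsub : ball ζ ε' ⊆ ball ζ₀ ε := by
    apply ball_subset_ball'
    have := (lt_min_iff.1 hε'.2).2
    linarith
  have hsum := hrc ε' hε'.1 (lt_min_iff.1 hε'.2).1
  constructor
  · filter_upwards [h1, hsum, hmon] with z' h5 h6 h7
    rw [← h6]
    have hb0 : b z' ≠ 0 := h7.1.ne_zero
    have e : ∑ᶠ x ∈ ball ζ ε', T z' x =
        ∑ᶠ x ∈ ball ζ ε', ((b z').rootMultiplicity x - (c z').rootMultiplicity x) :=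
      finsum_mem_congr rfl (fun x hx => h5 x (hsub hx))
    rw [e]
    have hfin := finite_mult (b z') hb0 (ball ζ ε')
    have e1 : ∑ᶠ x ∈ ball ζ ε', ((b z').rootMultiplicity x - (c z').rootMultiplicity x) =
        ∑ x ∈ hfin.toFinset, ((b z').rootMultiplicity x - (c z').rootMultiplicity x) := by
      apply finsum_mem_eq_sum_of_subset
      · rintro x ⟨hx, hx2⟩
        simp only [Finset.mem_coe, Set.Finite.mem_toFinset]
        refine ⟨hx, ?_⟩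
        rw [Function.mem_support] at hx2 ⊢
        omega
      · intro x hx
        simp only [Finset.mem_coe, Set.Finite.mem_toFinset] at hx
        exact hx.1
    rw [e1, finsum_mem_eq_sum _ hfin]
    exact Finset.sum_le_sum (fun x _ => Nat.sub_le _ _)
  · have hfr := (frequently_not_mul z₀ z).and_eventually
      ((h1.and h2).and ((hsum.and hmon).and hmonc))
    refine hfr.mono ?_
    rintro z' ⟨h8, ⟨h5, h9⟩, ⟨h6, h7⟩, h10⟩
    rw [← h6]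
    apply le_of_eq
    apply finsum_mem_congr rfl
    intro x hx
    rw [h5 x (hsub hx)]
    by_cases hr : (b z').IsRoot x
    · have hnc : ¬ (c z').IsRoot x := fun h => h9 h8 x ⟨hr, h⟩
      rw [Polynomial.rootMultiplicity_eq_zero hnc, Nat.sub_zero]
    · rw [Polynomial.rootMultiplicity_eq_zero hr, Nat.zero_sub]

/-- mass of a cluster -/
theorem cluster_sum (p : Polynomial ℂ) (hp : p.Monic) (s : Set ℂ) (hs : ∀ ζ, p.IsRoot ζ → ζ ∈ s) :
    ∑ᶠ ζ ∈ s, p.rootMultiplicity ζ = p.natDegree := by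
  have hp0 : p ≠ 0 := hp.ne_zero
  rw [finsum_mem_eq_sum_of_subset (t := p.roots.toFinset) (fun x => p.rootMultiplicity x)]
  · rw [← IsAlgClosed.card_roots_eq_natDegree (p := p)]
    have := Multiset.toFinset_sum_count_eq p.roots
    simpa [Polynomial.count_roots] using this
  · rintro x ⟨_, hx⟩
    rw [Function.mem_support] at hx
    simp only [Finset.mem_coe, Multiset.mem_toFinset, Polynomial.mem_roots hp0]
    exact (Polynomial.rootMultiplicity_pos hp0).1 (Nat.pos_of_ne_zero hx)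
  · intro x hx
    simp only [Finset.mem_coe, Multiset.mem_toFinset, Polynomial.mem_roots hp0] at hx
    exact hs x hx

theorem cluster_prod (p : Polynomial ℂ) (hp : p.Monic) (s : Set ℂ) (hs : ∀ ζ, p.IsRoot ζ → ζ ∈ s) :
    ∏ᶠ ζ ∈ s, ζ ^ p.rootMultiplicity ζ = (-1) ^ p.natDegree * p.coeff 0 := by
  have hp0 : p ≠ 0 := hp.ne_zero
  rw [finprod_mem_eq_prod_of_subset (t := p.roots.toFinset) (fun x => x ^ p.rootMultiplicity x)]
  · rw [(IsAlgClosed.splits p).coeff_zero_eq_prod_roots_of_monic hp, ← mul_assoc, ← pow_add,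
      ← two_mul, pow_mul]
    norm_num
    rw [Finset.prod_multiset_count]
    simp [Polynomial.count_roots]
  · rintro x ⟨_, hx⟩
    rw [Function.mem_mulSupport] at hx
    simp only [Finset.mem_coe, Multiset.mem_toFinset, Polynomial.mem_roots hp0]
    apply (Polynomial.rootMultiplicity_pos hp0).1
    apply Nat.pos_of_ne_zero
    intro h
    rw [h, pow_zero] at hx
    exact hx rfl
  · intro x hx
    simp only [Finset.mem_coe, Multiset.mem_toFinset, Polynomial.mem_roots hp0] at hx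
    exact hs x hx

/-- regularity of a cluster given by an analytic family -/
theorem reg_cluster (D : ℂ × ℂ → ℂ → ℕ) (z₀ : ℂ × ℂ) (ζ₀ : ℂ) (ε : ℝ) (hε : 0 < ε)
    (b : ℂ × ℂ → Polynomial ℂ) (hb : AnFam2 z₀ b) (hr : ∀ ζ, (b z₀).IsRoot ζ → ζ = ζ₀)
    (hball : ∀ᶠ z in 𝓝 z₀, ∀ ζ, (b z).IsRoot ζ → ζ ∈ ball ζ₀ ε)
    (hD : ∀ᶠ z in 𝓝 z₀, ∀ ζ ∈ ball ζ₀ ε, D z ζ = (b z).rootMultiplicity ζ) :
    (∀ᶠ z in 𝓝 z₀, ∑ᶠ ζ ∈ ball ζ₀ ε, D z ζ = D z₀ ζ₀) ∧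
    ∀ d : ℂ × ℂ, ∃ g : ℂ → ℂ, AnalyticAt ℂ g 0 ∧
      ∀ᶠ s in 𝓝 (0 : ℂ), g s = ∏ᶠ ζ ∈ ball ζ₀ ε, ζ ^ D (z₀ + s • d) ζ := by
  obtain ⟨⟨n, hn⟩, han⟩ := hb
  have hsum : ∀ᶠ z in 𝓝 z₀, ∑ᶠ ζ ∈ ball ζ₀ ε, D z ζ = n := by
    filter_upwards [hn, hball, hD] with z h1 h2 h3
    rw [← h1.2, ← cluster_sum (b z) h1.1 (ball ζ₀ ε) h2]
    exact finsum_mem_congr rfl h3
  constructor
  · have h0 : D z₀ ζ₀ = n := by
      have h1 := hn.self_of_nhds
      have h3 := hD.self_of_nhds ζ₀ (mem_ball_self hε)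
      rw [h3, ← h1.2, ← cluster_sum (b z₀) h1.1 {ζ₀} (fun ζ h => hr ζ h)]
      simp
    rw [h0]; exact hsum
  · intro d
    refine ⟨fun s => (-1) ^ n * (b (z₀ + s • d)).coeff 0, ?_, ?_⟩
    · apply AnalyticAt.mul analyticAt_const
      have h1 : AnalyticAt ℂ (fun s : ℂ => z₀ + s • d) 0 := by fun_prop
      exact (han 0).comp_of_eq h1 (by simp)
    · have hct : Tendsto (fun s : ℂ => z₀ + s • d) (𝓝 0) (𝓝 z₀) := by
        have : Continuous (fun s : ℂ => z₀ + s • d) := by fun_prop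
        simpa using this.tendsto 0
      filter_upwards [hct.eventually hn, hct.eventually hball, hct.eventually hD] with s h1 h2 h3
      rw [← h1.2, ← cluster_prod _ h1.1 (ball ζ₀ ε) h2]
      exact finprod_mem_congr rfl (fun x hx => by rw [h3 x hx])

/-- no zeros near a degenerate point -/
theorem oF_zero (F : ℂ × ℂ → ℂ) (hF : Continuous F) (h0 : F 0 ≠ 0) (z₀ : ℂ × ℂ) (ζ₀ : ℂ)
    (h : z₀ = 0 ∨ ζ₀ = 0) (ε₀ : ℝ) (hε₀ : 0 < ε₀) :
    ∃ ε : ℝ, 0 < ε ∧ ε < ε₀ ∧ ∀ᶠ z in 𝓝 z₀, ∀ ζ ∈ ball ζ₀ ε, oF F z ζ = 0 := by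
  have hz : ζ₀ • z₀ = 0 := by rcases h with h | h <;> simp [h]
  have hc : Continuous (fun p : (ℂ × ℂ) × ℂ => F (p.2 • p.1)) := by fun_prop
  have h1 : ∀ᶠ p in 𝓝 (z₀, ζ₀), F ((p : (ℂ × ℂ) × ℂ).2 • p.1) ≠ 0 := by
    apply hc.continuousAt.eventually_ne
    simpa [hz] using h0
  rw [nhds_prod_eq] at h1
  obtain ⟨pa, hpa, pb, hpb, hab⟩ := Filter.eventually_prod_iff.1 h1
  obtain ⟨ε₁, hε₁, hb⟩ := Metric.eventually_nhds_iff_ball.1 hpb
  refine ⟨min ε₁ (ε₀ / 2), lt_min hε₁ (by linarith), (min_le_right _ _).trans_lt (by linarith), ?_⟩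
  filter_upwards [hpa] with z hz ζ hζ
  have hne : F (ζ • z) ≠ 0 := hab hz (hb ζ (ball_subset_ball (min_le_left _ _) hζ))
  unfold oF analyticOrderNatAt
  have e0 : analyticOrderAt (fun ξ : ℂ => F (ξ • z)) ζ = 0 := analyticOrderAt_eq_zero.2 (Or.inr hne)
  rw [e0]
  rfl

theorem star (hLOC : T_LOC) (hRC : T_RC) : T_STAR := by
  intro F G hF hG hF0 hG0 hFG
  obtain ⟨T, hTdef⟩ : ∃ T : ℂ × ℂ → ℂ → ℕ, ∀ z x, T z x = oF F z x - oF G z x :=
    ⟨_, fun _ _ => rfl⟩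
  have hTF : ∀ z x, T z x ≤ oF F z x := fun z x => by rw [hTdef]; omega
  -- the main local description
  have main : ∀ (z₀ : ℂ × ℂ) (ζ₀ : ℂ), z₀ ≠ 0 → ζ₀ ≠ 0 → ∀ ε₀ > 0, ∃ ε > 0, ε < ε₀ ∧
      ∃ a b c d : ℂ × ℂ → Polynomial ℂ,
      AnFam2 z₀ a ∧ AnFam2 z₀ b ∧ AnFam2 z₀ c ∧ AnFam2 z₀ d ∧
      (∀ ζ, (a z₀).IsRoot ζ ∨ (b z₀).IsRoot ζ ∨ (c z₀).IsRoot ζ ∨ (d z₀).IsRoot ζ → ζ = ζ₀) ∧
      (∀ᶠ z in 𝓝 z₀,
        (∀ ζ, (a z).IsRoot ζ ∨ (b z).IsRoot ζ ∨ (c z).IsRoot ζ ∨ (d z).IsRoot ζ →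
          ζ ∈ ball ζ₀ ε)) ∧
      (∀ᶠ z in 𝓝 z₀, ∀ ζ ∈ ball ζ₀ ε,
        oF F z ζ = (a z).rootMultiplicity ζ + (b z).rootMultiplicity ζ ∧
        oF G z ζ = (a z).rootMultiplicity ζ + (c z).rootMultiplicity ζ ∧
        Pf T z ζ = (b z).rootMultiplicity ζ ∧ Pf T z (-ζ) = (c z).rootMultiplicity ζ) := by
    intro z₀ ζ₀ hz₀ hζ₀ ε₀ hε₀
    obtain ⟨ε, hε, hεε, a, b, c, d, ha, hb, hc, hd, hr, hev, hco⟩ :=
      hLOC F G hF hG hF0 hG0 hFG z₀ ζ₀ hz₀ hζ₀ ε₀ hε₀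
    refine ⟨ε, hε, hεε, a, b, c, d, ha, hb, hc, hd, hr, hev.mono (fun z h => h.1), ?_⟩
    have hTb : ∀ᶠ z in 𝓝 z₀, ∀ ζ ∈ ball ζ₀ ε,
        T z ζ = (b z).rootMultiplicity ζ - (c z).rootMultiplicity ζ := by
      filter_upwards [hev] with z hz ζ hζ
      obtain ⟨h1, h2, _, _⟩ := hz.2 ζ hζ
      rw [hTdef, h1, h2]; omega
    have hTc : ∀ᶠ z in 𝓝 z₀, ∀ ζ ∈ ball ζ₀ ε,
        (fun z x => T z (-x)) z ζ = (c z).rootMultiplicity ζ - (b z).rootMultiplicity ζ := by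
      filter_upwards [hev] with z hz ζ hζ
      obtain ⟨_, _, h1, h2⟩ := hz.2 ζ hζ
      rw [hTdef, h1, h2]; omega
    have k1 := key hRC T z₀ ζ₀ ε b c hb hc hTb hco
    have k2 := key hRC (fun z x => T z (-x)) z₀ ζ₀ ε c b hc hb hTc
      (hco.mono (fun z h h' ζ hh => h h' ζ ⟨hh.2, hh.1⟩))
    filter_upwards [hev, k1, k2] with z h1 h2 h3 ζ hζ
    refine ⟨(h1.2 ζ hζ).1, (h1.2 ζ hζ).2.1, h2 ζ hζ, ?_⟩
    rw [Pf_neg]; exact h3 ζ hζ
  -- degenerate points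
  have deg : ∀ (z₀ : ℂ × ℂ) (ζ₀ : ℂ), (z₀ = 0 ∨ ζ₀ = 0) → Pf T z₀ ζ₀ = 0 := by
    intro z₀ ζ₀ h
    obtain ⟨ε, hε, -, h2⟩ := oF_zero F hF.continuous hF0 z₀ ζ₀ h 1 one_pos
    apply Pf_eq
    filter_upwards [Ioo_mem_nhdsGT hε] with ε' hε'
    have h3 : ∀ᶠ z' in 𝓝 z₀, ∑ᶠ x ∈ ball ζ₀ ε', T z' x = 0 := by
      filter_upwards [h2] with z hz
      apply finsum_mem_eq_zero_of_forall_eq_zero
      intro x hx
      have := hTF z x
      rw [hz x (ball_subset_ball hε'.2.le hx)] at this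
      omega
    exact ⟨h3.mono (fun z h => h.le), Filter.Frequently.of_forall (fun _ => Nat.zero_le _)⟩
  have hle : ∀ z ζ, Pf T z ζ ≤ oF F z ζ := by
    intro z ζ
    by_cases hz : z = 0
    · rw [deg z ζ (Or.inl hz)]; exact Nat.zero_le _
    by_cases hζ : ζ = 0
    · rw [deg z ζ (Or.inr hζ)]; exact Nat.zero_le _
    obtain ⟨ε, hε, _, a, b, c, d, _, _, _, _, _, _, hev⟩ := main z ζ hz hζ 1 one_pos
    obtain ⟨h1, h2, h3, h4⟩ := hev.self_of_nhds ζ (mem_ball_self hε)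
    rw [h3, h1]; omega
  refine ⟨Pf T, fun z ζ => oF F z ζ - Pf T z ζ, ?_, ?_, ?_, ?_, ?_⟩
  · intro z ζ
    have := hle z ζ
    simp only; omega
  · intro z ζ
    by_cases h : z = 0 ∨ ζ = 0
    · obtain ⟨ε, hε, -, h2⟩ := oF_zero F hF.continuous hF0 z ζ h 1 one_pos
      obtain ⟨ε', hε', -, h3⟩ := oF_zero G hG.continuous hG0 z ζ h 1 one_pos
      simp only
      rw [h2.self_of_nhds ζ (mem_ball_self hε), h3.self_of_nhds ζ (mem_ball_self hε'),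
        deg z (-ζ) (by rcases h with h | h <;> simp [h])]
      simp
    · push Not at h
      obtain ⟨ε, hε, _, a, b, c, d, _, _, _, _, _, _, hev⟩ := main z ζ h.1 h.2 1 one_pos
      obtain ⟨h1, h2, h3, h4⟩ := hev.self_of_nhds ζ (mem_ball_self hε)
      simp only
      rw [h4, h1, h3, h2]; omega
  · intro c z ζ hc
    have h1 : Pf T (c • z) ζ = Pf T z (c * ζ) :=
      Pf_smul T c hc (fun z x => by rw [hTdef, hTdef, oF_smul F c hc, oF_smul G c hc]) z ζ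
    refine ⟨h1, ?_⟩
    simp only
    rw [h1, oF_smul F c hc]
  · intro z₀ ζ₀ ε₀ hε₀
    by_cases h : z₀ = 0 ∨ ζ₀ = 0
    · obtain ⟨ε, hε, hεε, h2⟩ := oF_zero F hF.continuous hF0 z₀ ζ₀ h ε₀ hε₀
      have h3 : ∀ᶠ z in 𝓝 z₀, ∀ ζ ∈ ball ζ₀ ε, Pf T z ζ = 0 := by
        filter_upwards [h2] with z hz ζ hζ
        have := hle z ζ
        rw [hz ζ hζ] at this
        omega
      refine ⟨ε, hε, hεε, ?_, ?_⟩
      · rw [deg z₀ ζ₀ h]
        filter_upwards [h3] with z hz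
        exact finsum_mem_eq_zero_of_forall_eq_zero hz
      · intro d
        refine ⟨fun _ => 1, analyticAt_const, ?_⟩
        have hct : Tendsto (fun s : ℂ => z₀ + s • d) (𝓝 0) (𝓝 z₀) := by
          have : Continuous (fun s : ℂ => z₀ + s • d) := by fun_prop
          simpa using this.tendsto 0
        filter_upwards [hct.eventually h3] with s hs
        symm
        apply finprod_mem_eq_one_of_forall_eq_one
        intro x hx
        rw [hs x hx, pow_zero]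
    · push Not at h
      obtain ⟨ε, hε, hεε, a, b, c, d, ha, hb, hc, hd, hr, hball, hev⟩ :=
        main z₀ ζ₀ h.1 h.2 ε₀ hε₀
      refine ⟨ε, hε, hεε, ?_⟩
      exact reg_cluster (Pf T) z₀ ζ₀ ε hε b hb (fun ζ hζ => hr ζ (Or.inr (Or.inl hζ)))
        (hball.mono (fun z h ζ hζ => h ζ (Or.inr (Or.inl hζ))))
        (hev.mono (fun z h ζ hζ => (h ζ hζ).2.2.1))
  · intro z₀ ζ₀ ε₀ hε₀
    by_cases h : z₀ = 0 ∨ ζ₀ = 0
    · obtain ⟨ε, hε, hεε, h2⟩ := oF_zero F hF.continuous hF0 z₀ ζ₀ h ε₀ hε₀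
      have h3 : ∀ᶠ z in 𝓝 z₀, ∀ ζ ∈ ball ζ₀ ε, oF F z ζ - Pf T z ζ = 0 := by
        filter_upwards [h2] with z hz ζ hζ
        rw [hz ζ hζ]; omega
      refine ⟨ε, hε, hεε, ?_, ?_⟩
      · have e0 := h3.self_of_nhds ζ₀ (mem_ball_self hε)
        beta_reduce
        rw [e0]
        filter_upwards [h3] with z hz
        exact finsum_mem_eq_zero_of_forall_eq_zero hz
      · intro d
        refine ⟨fun _ => 1, analyticAt_const, ?_⟩
        have hct : Tendsto (fun s : ℂ => z₀ + s • d) (𝓝 0) (𝓝 z₀) := by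
          have : Continuous (fun s : ℂ => z₀ + s • d) := by fun_prop
          simpa using this.tendsto 0
        filter_upwards [hct.eventually h3] with s hs
        symm
        apply finprod_mem_eq_one_of_forall_eq_one
        intro x hx
        rw [hs x hx, pow_zero]
    · push Not at h
      obtain ⟨ε, hε, hεε, a, b, c, d, ha, hb, hc, hd, hr, hball, hev⟩ :=
        main z₀ ζ₀ h.1 h.2 ε₀ hε₀
      refine ⟨ε, hε, hεε, ?_⟩
      exact reg_cluster (fun z ζ => oF F z ζ - Pf T z ζ) z₀ ζ₀ ε hε a ha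
        (fun ζ hζ => hr ζ (Or.inl hζ))
        (hball.mono (fun z h ζ hζ => h ζ (Or.inl hζ)))
        (hev.mono (fun z h ζ hζ => by
          obtain ⟨h1, _, h3, _⟩ := h ζ hζ
          rw [h1, h3]; omega))

end Pool.Agent.H76.BP
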